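import Pool.Agent.Mg.Fc7a479.G0a902f

namespace Pool.Agent.Results.MP_d228e7_nt.ShortIntervals

theorem result : ∃ c δ : ℝ, 0 < c ∧ 0 < δ ∧ ∃ y₀ : ℕ, ∀ X y : ℕ, y₀ ≤ y →
    (({n : ℕ | X < n ∧ n ≤ X + y ∧
      N435e839e.totalSum true n < c * Real.log (Real.log y)}.ncard : ℕ) : ℝ) ≤
        (y : ℝ) ^ (1 - δ) := by
  obtain ⟨y₀, h⟩ := Pool.Agent.MP_d228e7_nt.main
  refine ⟨1 / 9600, 1 / 26214400, by norm_num, by norm_num, y₀, fun X y hy => ?_⟩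
  refine le_trans (le_of_eq ?_) (h X y hy)
  rw [← Set.ncard_coe_finset]
  congr 2
  ext n
  simp only [Finset.coe_filter, Finset.mem_Ioc, Set.mem_ofPred_eq, and_assoc]

end Pool.Agent.Results.MP_d228e7_nt.ShortIntervals
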